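import Pool.Agent.H66.SYM.Basic

/-!
# Module VAN: linear independence of the sequences of powers
-/

set_option autoImplicit false

namespace Pool.H66.SYM

open Filter Topology

theorem s_VAN : S_VAN := by
  intro φ h0 hφ
  have h := (linearIndependent_monoidHom (Multiplicative ℕ) ℂ).comp (powersHom ℂ)
    (powersHom ℂ).injective
  rw [linearIndependent_iff'] at h
  have h1 := h φ.support (fun e => φ e * e) (by
    funext n
    have h2 := hφ (Multiplicative.toAdd n + 1) (by omega)
    unfold Finsupp.sum at h2
    rw [Finset.sum_apply, Pi.zero_apply, ← h2]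
    refine Finset.sum_congr rfl fun e _ => ?_
    simp only [Pi.smul_apply, smul_eq_mul, Function.comp_apply, powersHom_apply]
    ring)
  by_contra hne
  obtain ⟨e, he⟩ := Finsupp.ne_iff.1 hne
  have hmem : e ∈ φ.support := Finsupp.mem_support_iff.2 he
  have h3 := h1 e hmem
  rcases mul_eq_zero.1 h3 with h4 | h4
  · exact he h4
  · exact h0 e hmem h4

end Pool.H66.SYM
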